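import Pool.Agent.H37.DEN.Targets
import Pool.Agent.H70.IX.PUA

/-!
# The symmetry `φ ↦ η φ` moves the curve
-/

set_option autoImplicit false

open MvPolynomial Filter
open Pool.Agent.H18.HIT Pool.Agent.H8.TD Pool.Agent.H37.DEN
open Pool.Agent.H70.IX (tw tw_coeff)

namespace Pool.Agent.H70.DEN

section lv

variable {k : Type} [Field k]

/-- all coefficients below `b` vanish -/
def Lv (b : ℤ) (x : LaurentSeries k) : Prop := ∀ n < b, x.coeff n = 0

theorem Lv.mono {b c : ℤ} {x : LaurentSeries k} (h : Lv b x) (hc : c ≤ b) : Lv c x :=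
  fun n hn => h n (hn.trans_le hc)

theorem Lv.zero (b : ℤ) : Lv b (0 : LaurentSeries k) := fun _ _ => HahnSeries.coeff_zero

theorem Lv.add {b : ℤ} {x y : LaurentSeries k} (hx : Lv b x) (hy : Lv b y) : Lv b (x + y) := by
  intro n hn
  rw [HahnSeries.coeff_add, hx n hn, hy n hn, add_zero]

theorem Lv.neg {b : ℤ} {x : LaurentSeries k} (hx : Lv b x) : Lv b (-x) := by
  intro n hn
  rw [HahnSeries.coeff_neg, hx n hn, neg_zero]

theorem Lv.sub {b : ℤ} {x y : LaurentSeries k} (hx : Lv b x) (hy : Lv b y) : Lv b (x - y) := by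
  rw [sub_eq_add_neg]
  exact hx.add hy.neg

theorem Lv.mul {b c : ℤ} {x y : LaurentSeries k} (hx : Lv b x) (hy : Lv c y) :
    Lv (b + c) (x * y) := by
  intro n hn
  rw [HahnSeries.coeff_mul]
  apply Finset.sum_eq_zero
  intro ij hij
  have h1 : ij.1 + ij.2 = n := (Finset.mem_antidiagonal.1 hij).2.2
  by_cases h : ij.1 < b
  · rw [hx _ h, zero_mul]
  · rw [hy ij.2 (by linarith [not_lt.1 h]), mul_zero]

theorem Lv.sum {ι' : Type*} {b : ℤ} (s : Finset ι') (f : ι' → LaurentSeries k)
    (h : ∀ i ∈ s, Lv b (f i)) : Lv b (∑ i ∈ s, f i) := by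
  classical
  induction s using Finset.induction_on with
  | empty => exact Lv.zero b
  | insert a s ha ih =>
    rw [Finset.sum_insert ha]
    exact (h a (Finset.mem_insert_self _ _)).add
      (ih fun i hi => h i (Finset.mem_insert_of_mem hi))

theorem Lv.le_order {b : ℤ} {x : LaurentSeries k} (h : Lv b x) (hx : x ≠ 0) : b ≤ x.order := by
  by_contra hcon
  exact HahnSeries.coeff_order_eq_zero.not.2 hx (h _ (not_le.1 hcon))

theorem lv_of_le_order {b : ℤ} {x : LaurentSeries k} (h : b ≤ x.order) : Lv b x :=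
  fun _ hn => HahnSeries.coeff_eq_zero_of_lt_order (hn.trans_le h)

theorem lv_const (c : k) : Lv 0 (algebraMap k (LaurentSeries k) c) := by
  intro n hn
  have h : algebraMap k (LaurentSeries k) c = HahnSeries.C c :=
    LaurentSeries.algebraMap_apply k c
  rw [h, HahnSeries.C_apply, HahnSeries.coeff_single_of_ne hn.ne]

end lv

section taylor

variable {k : Type} [Field k] (D : ℕ) (b : ℤ) (x y : Fin 3 → LaurentSeries k)

/-- the linear term -/
noncomputable def lin (q : Po 3 k) : LaurentSeries k := ∑ j, aeval x (pderiv j q) * y j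

/-- the estimates for a polynomial of degree `n` -/
structure G (q : Po 3 k) (n : ℕ) : Prop where
  fa : Lv (-(n * D)) (aeval x q)
  fb : Lv (b - n * D) (aeval (x + y) q - aeval x q)
  fc : Lv (2 * b - n * D) (aeval (x + y) q - aeval x q - lin x y q)

variable {D b x y}

theorem lin_add (p q : Po 3 k) : lin x y (p + q) = lin x y p + lin x y q := by
  unfold lin
  rw [← Finset.sum_add_distrib]
  apply Finset.sum_congr rfl
  intro j _
  rw [map_add, map_add, add_mul]

theorem lin_mul (p q : Po 3 k) : lin x y (p * q) =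
    aeval x p * lin x y q + aeval x q * lin x y p := by
  unfold lin
  rw [Finset.mul_sum, Finset.mul_sum, ← Finset.sum_add_distrib]
  apply Finset.sum_congr rfl
  intro j _
  rw [pderiv_mul, map_add, map_mul, map_mul]
  ring

theorem G.mono {q : Po 3 k} {n n' : ℕ} (h : G D b x y q n) (hn : n ≤ n') : G D b x y q n' := by
  have h1 : (n : ℤ) * D ≤ n' * D := by
    exact mul_le_mul_of_nonneg_right (by exact_mod_cast hn) (Int.natCast_nonneg D)
  exact ⟨h.fa.mono (by linarith), h.fb.mono (by linarith), h.fc.mono (by linarith)⟩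

theorem G.add {p q : Po 3 k} {n : ℕ} (hp : G D b x y p n) (hq : G D b x y q n) :
    G D b x y (p + q) n := by
  refine ⟨?_, ?_, ?_⟩
  · rw [map_add]
    exact hp.fa.add hq.fa
  · have h := hp.fb.add hq.fb
    rw [map_add, map_add]
    have e : aeval (x + y) p + aeval (x + y) q - (aeval x p + aeval x q) =
        (aeval (x + y) p - aeval x p) + (aeval (x + y) q - aeval x q) := by ring
    rw [e]
    exact h
  · have h := hp.fc.add hq.fc
    rw [map_add, map_add, lin_add]
    have e : aeval (x + y) p + aeval (x + y) q - (aeval x p + aeval x q) -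
        (lin x y p + lin x y q) = (aeval (x + y) p - aeval x p - lin x y p) +
        (aeval (x + y) q - aeval x q - lin x y q) := by ring
    rw [e]
    exact h

theorem G.mul (hb : 0 ≤ b) {p q : Po 3 k} {n m : ℕ} (hp : G D b x y p n)
    (hq : G D b x y q m) : G D b x y (p * q) (n + m) := by
  refine ⟨?_, ?_, ?_⟩
  · rw [map_mul]
    refine (hp.fa.mul hq.fa).mono (le_of_eq ?_)
    push_cast
    ring
  · have e : aeval (x + y) (p * q) - aeval x (p * q) =
        aeval x p * (aeval (x + y) q - aeval x q) + (aeval (x + y) p - aeval x p) * aeval x q +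
        (aeval (x + y) p - aeval x p) * (aeval (x + y) q - aeval x q) := by
      rw [map_mul, map_mul]
      ring
    rw [e]
    refine Lv.add (Lv.add ?_ ?_) ?_
    · refine (hp.fa.mul hq.fb).mono (le_of_eq ?_)
      push_cast
      ring
    · refine (hp.fb.mul hq.fa).mono (le_of_eq ?_)
      push_cast
      ring
    · refine (hp.fb.mul hq.fb).mono ?_
      push_cast
      linarith
  · have e : aeval (x + y) (p * q) - aeval x (p * q) - lin x y (p * q) =
        aeval x p * (aeval (x + y) q - aeval x q - lin x y q) +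
        aeval x q * (aeval (x + y) p - aeval x p - lin x y p) +
        (aeval (x + y) p - aeval x p) * (aeval (x + y) q - aeval x q) := by
      rw [map_mul, map_mul, lin_mul]
      ring
    rw [e]
    refine Lv.add (Lv.add ?_ ?_) ?_
    · refine (hp.fa.mul hq.fc).mono (le_of_eq ?_)
      push_cast
      ring
    · refine (hq.fa.mul hp.fc).mono (le_of_eq ?_)
      push_cast
      ring
    · refine (hp.fb.mul hq.fb).mono (le_of_eq ?_)
      push_cast
      ring

theorem G.C (c : k) : G D b x y (C c) 0 := by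
  have h1 : lin x y (MvPolynomial.C c) = 0 := by
    unfold lin
    apply Finset.sum_eq_zero
    intro j _
    rw [pderiv_C, map_zero, zero_mul]
  have h2 : aeval (x + y) (MvPolynomial.C c) - aeval x (MvPolynomial.C c) =
      (0 : LaurentSeries k) := by
    rw [aeval_C, aeval_C, sub_self]
  refine ⟨?_, ?_, ?_⟩
  · rw [aeval_C]
    exact (lv_const c).mono (by simp)
  · rw [h2]
    exact Lv.zero _
  · rw [h2, h1, sub_zero]
    exact Lv.zero _

theorem G.X (hx : ∀ j, Lv (-(D : ℤ)) (x j)) (hy : ∀ j, Lv b (y j)) (j : Fin 3) :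
    G D b x y (X j) 1 := by
  have h1 : lin x y (MvPolynomial.X j) = y j := by
    unfold lin
    rw [Finset.sum_eq_single j]
    · rw [pderiv_X_self, map_one, one_mul]
    · intro i _ hi
      rw [pderiv_X_of_ne hi.symm, map_zero, zero_mul]
    · intro h
      exact absurd (Finset.mem_univ j) h
  have h2 : aeval (x + y) (MvPolynomial.X j : Po 3 k) - aeval x (MvPolynomial.X j : Po 3 k) =
      y j := by
    rw [aeval_X, aeval_X, Pi.add_apply]
    ring
  have hD : (0 : ℤ) ≤ D := Int.natCast_nonneg D
  refine ⟨?_, ?_, ?_⟩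
  · rw [aeval_X]
    exact (hx j).mono (by simp)
  · rw [h2]
    exact (hy j).mono (by push_cast; linarith)
  · rw [h2, h1, sub_self]
    exact Lv.zero _

theorem G.pow (hb : 0 ≤ b) (hx : ∀ j, Lv (-(D : ℤ)) (x j)) (hy : ∀ j, Lv b (y j)) (j : Fin 3)
    (n : ℕ) : G D b x y ((MvPolynomial.X j : Po 3 k) ^ n) n := by
  induction n with
  | zero =>
    rw [pow_zero, ← (MvPolynomial.C_1 : (MvPolynomial.C (1 : k) : Po 3 k) = 1)]
    exact G.C 1
  | succ n ih =>
    rw [pow_succ]
    exact ih.mul hb (G.X hx hy j)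

/-- the estimates for all polynomials -/
theorem G.all (hb : 0 ≤ b) (hx : ∀ j, Lv (-(D : ℤ)) (x j)) (hy : ∀ j, Lv b (y j)) (q : Po 3 k) :
    G D b x y q q.totalDegree := by
  classical
  have hmon : ∀ (m : Fin 3 →₀ ℕ) (c : k), G D b x y (monomial m c) (∑ i, m i) := by
    intro m c
    rw [monomial_eq, Finsupp.prod_fintype _ _ (fun i => pow_zero _)]
    have h1 : ∀ s : Finset (Fin 3), G D b x y (∏ i ∈ s, (MvPolynomial.X i : Po 3 k) ^ m i)
        (∑ i ∈ s, m i) := by
      intro s
      induction s using Finset.induction_on with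
      | empty =>
        rw [Finset.prod_empty, Finset.sum_empty, ← (MvPolynomial.C_1 : (MvPolynomial.C (1 : k) : Po 3 k) = 1)]
        exact G.C 1
      | insert a s ha ih =>
        rw [Finset.prod_insert ha, Finset.sum_insert ha]
        exact (G.pow hb hx hy a (m a)).mul hb ih
    have h2 := (G.C (D := D) (b := b) (x := x) (y := y) c).mul hb (h1 Finset.univ)
    rw [zero_add] at h2
    exact h2
  rw [← support_sum_monomial_coeff q]
  have hsum : ∀ s ⊆ q.support, G D b x y (∑ v ∈ s, monomial v (coeff v q)) q.totalDegree := by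
    intro s
    induction s using Finset.induction_on with
    | empty =>
      intro _
      rw [Finset.sum_empty, ← (MvPolynomial.C_0 : (MvPolynomial.C (0 : k) : Po 3 k) = 0)]
      exact (G.C 0).mono (Nat.zero_le _)
    | insert a s ha ih =>
      intro hs
      rw [Finset.sum_insert ha]
      refine G.add ((hmon a _).mono ?_) (ih fun v hv => hs (Finset.mem_insert_of_mem hv))
      have h3 := le_totalDegree (hs (Finset.mem_insert_self a s))
      rw [Finsupp.sum_fintype _ _ (fun i => rfl)] at h3
      exact h3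
  have h4 := hsum q.support (Finset.Subset.refl _)
  rw [support_sum_monomial_coeff] at h4 ⊢
  exact h4

end taylor

section adj

variable {k : Type} [Field k]

/-- the estimates for the adjugate -/
theorem lv_adj {a : ℤ} (A : Matrix (Fin 3) (Fin 3) (LaurentSeries k)) (h : ∀ i j, Lv a (A i j))
    (i j : Fin 3) : Lv (a + a) (A.adjugate i j) := by
  have h2 : ∀ i j i' j', Lv (a + a) (A i j * A i' j') := fun i j i' j' => (h i j).mul (h i' j')
  rw [Matrix.adjugate_fin_three]
  fin_cases i <;> fin_cases j <;>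
    first
    | exact (h2 _ _ _ _).sub (h2 _ _ _ _)
    | exact (h2 _ _ _ _).neg.add (h2 _ _ _ _)

end adj

section main

variable {k : Type} [Field k]

theorem deg_pd (j : Fin 3) (p : Po 3 k) : (pderiv j p).totalDegree ≤ p.totalDegree := by
  rw [totalDegree]
  refine Finset.sup_le fun n hn => ?_
  rw [mem_support_iff, coeff_pderiv] at hn
  have h4 : coeff (n + Finsupp.single j 1) p ≠ 0 := fun h5 => hn (by rw [h5]; simp)
  have h6 := le_totalDegree (mem_support_iff.2 h4)
  rw [Finsupp.sum_add_index' (fun _ => rfl) (fun _ _ _ => rfl),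
    Finsupp.sum_single_index rfl] at h6
  omega

/-- the twist as an algebra homomorphism -/
noncomputable def twA (η : kˣ) : LaurentSeries k →ₐ[k] LaurentSeries k :=
  { tw η with
    commutes' := fun c => by
      change tw η (algebraMap k (LaurentSeries k) c) = algebraMap k (LaurentSeries k) c
      have h : algebraMap k (LaurentSeries k) c = HahnSeries.C c :=
        LaurentSeries.algebraMap_apply k c
      rw [h]
      ext n
      rw [tw_coeff, HahnSeries.C_apply, HahnSeries.coeff_single]
      split_ifs with h0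
      · rw [h0, zpow_zero, Units.val_one, one_mul]
      · rw [mul_zero] }

theorem twA_coeff (η : kˣ) (x : LaurentSeries k) (n : ℤ) :
    (twA η x).coeff n = ((η ^ n : kˣ) : k) * x.coeff n := rfl

theorem aeval_eq (χ : Po 3 k →ₐ[k] LaurentSeries k) (q : Po 3 k) :
    χ q = aeval (fun j => χ (X j)) q := by
  have h : χ = aeval (fun j => χ (X j)) := by
    apply MvPolynomial.algHom_ext
    intro i
    rw [aeval_X]
  exact congrArg (fun g : Po 3 k →ₐ[k] LaurentSeries k => g q) h

theorem lv_dl (χ : Po 3 k →ₐ[k] LaurentSeries k) (j : Fin 3) : Lv (-(dl χ : ℤ)) (χ (X j)) := by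
  apply lv_of_le_order
  have h1 : pl (χ (X j)) ≤ dl χ := Finset.le_sup (f := fun j => pl (χ (X j))) (Finset.mem_univ j)
  have h2 : (-(χ (X j)).order).toNat ≤ dl χ := h1
  omega

theorem pf_TAY : Pool.Agent.H37.DEN.T_TAY := by
  classical
  intro k _ _ _ T e he
  refine ⟨3 * deg T + (jac T).totalDegree + 1, ?_⟩
  intro m C i μ B hμ _ hJ hB
  set χ := C.ch i with hχ
  set D := dl χ with hD
  set x : Fin 3 → LaurentSeries k := fun j => χ (X j) with hx
  have hxD : ∀ j, Lv (-(D : ℤ)) (x j) := lv_dl χ
  have hD0 : (0 : ℤ) ≤ D := Int.natCast_nonneg D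
  -- the first exponent which is not divisible by `μ`
  obtain ⟨b, ⟨⟨j0, hbμ, hbne⟩, hbmin⟩⟩ : ∃ b : ℤ, (∃ j, ¬ (μ : ℤ) ∣ b ∧ (x j).coeff b ≠ 0) ∧
      ∀ n : ℤ, (∃ j, ¬ (μ : ℤ) ∣ n ∧ (x j).coeff n ≠ 0) → b ≤ n := by
    apply Int.exists_least_of_bdd
    · refine ⟨-(D : ℤ), ?_⟩
      rintro n ⟨j, -, hn⟩
      by_contra hcon
      exact hn (hxD j n (not_le.1 hcon))
    · obtain ⟨j, n, h1, h2⟩ := C.prim i μ hμ
      exact ⟨n, j, h1, h2⟩
  have hBb : B ≤ b := by
    by_contra hcon
    exact hbne (hB j0 b (not_le.1 hcon) hbμ)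
  have hvan : ∀ j n, n < b → ¬ (μ : ℤ) ∣ n → (x j).coeff n = 0 := by
    intro j n hn hnμ
    by_contra hne
    exact absurd (hbmin n ⟨j, hnμ, hne⟩) (not_le.2 hn)
  -- the order of the jacobian
  have hordJ : -(((jac T).totalDegree : ℤ) * D) ≤ (χ (jac T)).order := by
    have h1 := (G.all (D := D) (b := 0) (x := x) (y := 0) le_rfl hxD
      (fun j => Lv.zero 0) (jac T)).fa
    rw [← aeval_eq] at h1
    exact h1.le_order hJ
  have hR : ∀ c : ℤ, c ≤ (3 * deg T : ℕ) * (D : ℤ) + (χ (jac T)).order →
      c ≤ ((3 * deg T + (jac T).totalDegree + 1 : ℕ) : ℤ) * ((D : ℤ) + 1) +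
        (χ (jac T)).order := by
    intro c hc
    have h1 : (0 : ℤ) ≤ (jac T).totalDegree := Int.natCast_nonneg _
    have h2 : (0 : ℤ) ≤ deg T := Int.natCast_nonneg _
    push_cast at hc ⊢
    nlinarith [mul_nonneg h1 hD0, mul_nonneg h2 hD0]
  rcases le_or_gt b 0 with hb0 | hb1
  · have h1 : (0 : ℤ) ≤ (jac T).totalDegree := Int.natCast_nonneg _
    have h2 : (0 : ℤ) ≤ deg T := Int.natCast_nonneg _
    push_cast
    nlinarith [mul_nonneg h1 hD0, mul_nonneg h2 hD0]
  apply hR
  -- the root of unity
  obtain ⟨η, hη⟩ : ∃ η : kˣ, orderOf η = μ := by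
    have : NeZero (μ : k) := ⟨by exact_mod_cast (by omega : μ ≠ 0)⟩
    have : NeZero μ := ⟨by omega⟩
    obtain ⟨z, hz⟩ := HasEnoughRootsOfUnity.exists_primitiveRoot k μ
    have hu : IsUnit z := hz.isUnit (by omega)
    refine ⟨hu.unit, ?_⟩
    rw [← orderOf_units, IsUnit.unit_spec]
    exact hz.eq_orderOf.symm
  have hη1 : ∀ n : ℤ, (μ : ℤ) ∣ n → η ^ n = 1 := by
    intro n hn
    rw [← hη] at hn
    exact orderOf_dvd_iff_zpow_eq_one.1 hn
  set y : Fin 3 → LaurentSeries k := fun j => twA η (x j) - x j with hy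
  have hyc : ∀ j n, (y j).coeff n = (((η ^ n : kˣ) : k) - 1) * (x j).coeff n := by
    intro j n
    rw [hy]
    change (twA η (x j) - x j).coeff n = _
    rw [HahnSeries.coeff_sub, twA_coeff]
    ring
  have hyb : ∀ j, Lv b (y j) := by
    intro j n hn
    rw [hyc]
    by_cases h : (μ : ℤ) ∣ n
    · rw [hη1 n h, Units.val_one, sub_self, zero_mul]
    · rw [hvan j n hn h, mul_zero]
  have hxy : ∀ q : Po 3 k, twA η (χ q) = aeval (x + y) q := by
    intro q
    have h1 : (twA η).comp χ = aeval (x + y) := by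
      apply MvPolynomial.algHom_ext
      intro j
      rw [aeval_X, AlgHom.comp_apply, Pi.add_apply]
      change twA η (x j) = x j + (twA η (x j) - x j)
      ring
    exact congrArg (fun g : Po 3 k →ₐ[k] LaurentSeries k => g q) h1
  -- the differences of the images
  have hdelta : ∀ l, Lv (2 * b) (aeval (x + y) (T l) - aeval x (T l)) := by
    intro l
    rw [← hxy, ← aeval_eq]
    have hp := C.pow i (X l)
    rw [aeval_X] at hp
    intro n hn
    have h1 : (twA η (χ (T l)) - χ (T l)).coeff n =
        (((η ^ n : kˣ) : k) - 1) * (χ (T l)).coeff n := by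
      rw [HahnSeries.coeff_sub, twA_coeff]
      ring
    rw [h1]
    by_cases hen : (e : ℤ) ∣ n
    · obtain ⟨n', rfl⟩ := hen
      rw [(hp n').1]
      by_cases hμn : (μ : ℤ) ∣ n'
      · rw [hη1 _ (hμn.mul_left _), Units.val_one, sub_self, zero_mul]
      · have h2 : n' < b := by
          by_contra hcon
          have h3 := not_lt.1 hcon
          have h4 : (2 : ℤ) ≤ e := by exact_mod_cast he
          nlinarith
        have h3 : (χ (X l)).coeff n' = 0 := hvan l n' h2 hμn
        rw [h3, mul_zero]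
    · rw [(hp n).2 hen, mul_zero]
  -- the linear terms
  have hlin : ∀ l, Lv (2 * b - deg T * D) (lin x y (T l)) := by
    intro l
    have hdl : (T l).totalDegree ≤ deg T :=
      Finset.le_sup (f := fun i => (T i).totalDegree) (Finset.mem_univ l)
    have h1 := ((G.all (D := D) hb1.le hxD hyb (T l)).mono hdl).fc
    have h2 : lin x y (T l) = (aeval (x + y) (T l) - aeval x (T l)) -
        (aeval (x + y) (T l) - aeval x (T l) - lin x y (T l)) := by ring
    rw [h2]
    refine ((hdelta l).mono ?_).sub h1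
    have h3 : (0 : ℤ) ≤ deg T := Int.natCast_nonneg _
    nlinarith [mul_nonneg h3 hD0]
  -- the matrix
  set A : Matrix (Fin 3) (Fin 3) (LaurentSeries k) :=
    Matrix.of fun l j => aeval x (pderiv j (T l)) with hA
  have hAe : ∀ l j, Lv (-((deg T : ℤ) * D)) (A l j) := by
    intro l j
    have hdl : (pderiv j (T l)).totalDegree ≤ deg T := by
      exact (deg_pd j (T l)).trans
        (Finset.le_sup (f := fun i => (T i).totalDegree) (Finset.mem_univ l))
    exact ((G.all (D := D) hb1.le hxD hyb (pderiv j (T l))).mono hdl).fa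
  have hdet : A.det = χ (jac T) := by
    unfold jac
    rw [AlgHom.map_det]
    congr 1
    ext l j
    rw [AlgHom.mapMatrix_apply, Matrix.map_apply, Matrix.of_apply, hA, Matrix.of_apply,
      aeval_eq χ]
  have hmul : A.mulVec y = fun l => lin x y (T l) := by
    funext l
    rfl
  have hJy : χ (jac T) * y j0 = ∑ l, A.adjugate j0 l * lin x y (T l) := by
    have h1 : A.adjugate.mulVec (A.mulVec y) = A.det • y := by
      rw [Matrix.mulVec_mulVec, Matrix.adjugate_mul, Matrix.smul_mulVec, Matrix.one_mulVec]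
    have h2 := congrFun h1 j0
    rw [hmul, hdet] at h2
    exact h2.symm
  have hLv : Lv (2 * b - 3 * (deg T * D)) (χ (jac T) * y j0) := by
    rw [hJy]
    apply Lv.sum
    intro l _
    refine ((lv_adj A hAe j0 l).mul (hlin l)).mono (le_of_eq ?_)
    ring
  have hyne : (y j0).coeff b ≠ 0 := by
    rw [hyc]
    refine mul_ne_zero ?_ hbne
    intro h0
    apply hbμ
    rw [← hη, orderOf_dvd_iff_zpow_eq_one]
    exact Units.ext (sub_eq_zero.1 h0)
  have hy0 : y j0 ≠ 0 := by
    intro h0
    rw [h0] at hyne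
    exact hyne HahnSeries.coeff_zero
  have hordy : (y j0).order ≤ b := HahnSeries.order_le_of_coeff_ne_zero hyne
  have h5 := hLv.le_order (mul_ne_zero hJ hy0)
  rw [HahnSeries.order_mul hJ hy0] at h5
  push_cast
  linarith

end main

end Pool.Agent.H70.DEN
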